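import Mathlib

/-!
# Squad BSH, row BIN (helper97)
-/

set_option autoImplicit false

namespace Pool.Agent.BSH.H97

/-- `n ^ n ≤ 3 ^ n n!` -/
theorem pow_self_le (n : ℕ) : n ^ n ≤ 3 ^ n * n.factorial := by
  have h : ((n : ℝ) ^ n / n.factorial) ≤ Real.exp n :=
    Real.pow_div_factorial_le_exp (n : ℝ) (Nat.cast_nonneg n) n
  have h3 : Real.exp n ≤ 3 ^ n := by
    rw [show ((n : ℕ) : ℝ) = (n : ℝ) * 1 by ring, Real.exp_nat_mul]
    exact pow_le_pow_left₀ (Real.exp_pos 1).le (le_of_lt (lt_trans Real.exp_one_lt_d9 (by norm_num))) n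
  have hf : (0 : ℝ) < n.factorial := by exact_mod_cast n.factorial_pos
  have h4 : (n : ℝ) ^ n ≤ 3 ^ n * n.factorial := (div_le_iff₀ hf).1 (h.trans h3)
  exact_mod_cast h4

theorem bin1 (n k d D0 : ℕ) (hd : 1 ≤ d) (hk : k ≤ n) :
    (n * D0 + k * (d - 2) + n).choose n ≤ 3 ^ n * (D0 + d) ^ n := by
  have h1 : n * D0 + k * (d - 2) + n ≤ n * (D0 + d) := by
    rcases Nat.lt_or_ge d 2 with h | h
    · have : d = 1 := by omega
      subst this
      simp only [Nat.reduceSubDiff, mul_zero, add_zero]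
      ring_nf
      exact le_refl _
    · obtain ⟨e, rfl⟩ : ∃ e, d = e + 2 := ⟨d - 2, by omega⟩
      have : k * e ≤ n * e := Nat.mul_le_mul_right e hk
      simp only [Nat.add_sub_cancel]
      nlinarith
  have h2 : (n * D0 + k * (d - 2) + n).choose n ≤ (n * (D0 + d)).choose n :=
    Nat.choose_le_choose n h1
  have h3 : (n * (D0 + d)).choose n * n.factorial ≤ (n * (D0 + d)) ^ n := by
    have := Nat.descFactorial_le_pow (n * (D0 + d)) n
    rw [Nat.descFactorial_eq_factorial_mul_choose] at this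
    linarith [this, mul_comm (n.factorial) ((n * (D0 + d)).choose n)]
  have h4 : (n * (D0 + d)) ^ n ≤ (3 ^ n * (D0 + d) ^ n) * n.factorial := by
    rw [mul_pow]
    calc n ^ n * (D0 + d) ^ n ≤ (3 ^ n * n.factorial) * (D0 + d) ^ n :=
          Nat.mul_le_mul_right _ (pow_self_le n)
      _ = (3 ^ n * (D0 + d) ^ n) * n.factorial := by ring
  have h5 : (n * (D0 + d)).choose n ≤ 3 ^ n * (D0 + d) ^ n :=
    Nat.le_of_mul_le_mul_right (h3.trans h4) n.factorial_pos
  exact h2.trans h5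

end Pool.Agent.BSH.H97
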