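import Pool.Agent.Helper97_BSH.BIN
import Pool.Agent.BSH.Stmts

/-!
# Squad BSH, row BIN in the form of the statement file
-/

namespace Pool.Agent.BSH.H97

theorem bin : Pool.Agent.BSH.BinStmt := fun n k d D0 hd hk => bin1 n k d D0 hd hk

end Pool.Agent.BSH.H97
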